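import Pool.Agent.Helper46.NU.Names

/-! # Packet NAT (2729): names of natural numbers -/

namespace NU.PkNAT

open Pool.Agent.Helper97.Ku


theorem nn_def {L : Type} [CompleteBooleanAlgebra L] (n : ℕ) :
    (nn n : BSet L) = BSet.mk (Fin n) (fun i => nn i.1) (fun _ => ⊤) := by
  rw [nn]

theorem mem_nn {L : Type} [CompleteBooleanAlgebra L] (n : ℕ) (x : BSet L) :
    x.mem (nn n) = ⨆ i : Fin n, x.eq (nn i.1) := by
  rw [nn_def, BSet.mem_mk]
  exact iSup_congr fun i => top_inf_eq _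

theorem mem_omN {L : Type} [CompleteBooleanAlgebra L] (x : BSet L) :
    x.mem omN = ⨆ n : ℕ, x.eq (nn n) := by
  rw [omN, BSet.mem_mk]
  exact iSup_congr fun i => top_inf_eq _

theorem eq_bot {L : Type} [CompleteBooleanAlgebra L] (n : ℕ) :
    ∀ m < n, (nn m : BSet L).eq (nn n) = ⊥ := by
  induction n using Nat.strong_induction_on with
  | _ n ih =>
    intro m hm
    have h1 : (nn m : BSet L).mem (nn n) = ⊤ := by
      rw [mem_nn, eq_top_iff]
      refine le_trans ?_ (le_iSup _ (⟨m, hm⟩ : Fin n))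
      rw [BSet.eq_refl]
    have h2 : (nn m : BSet L).mem (nn m) = ⊥ := by
      rw [mem_nn, eq_bot_iff]
      refine iSup_le fun i => ?_
      rw [BSet.eq_comm', ih m hm i.1 i.2]
    have h3 := BSet.mem_congr_right (nn n : BSet L) (nn m) (nn m)
    rw [h1, inf_top_eq, h2, BSet.eq_comm'] at h3
    exact le_bot_iff.1 h3

theorem eq_nn {L : Type} [CompleteBooleanAlgebra L] (m n : ℕ) :
    (nn m : BSet L).eq (nn n) = bo (m = n) := by
  rcases lt_trichotomy m n with h | h | h
  · rw [eq_bot n m h, bo_false h.ne]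
  · subst h
    rw [BSet.eq_refl, bo_true rfl]
  · rw [BSet.eq_comm', eq_bot m n h, bo_false h.ne']

theorem mem_nn' {L : Type} [CompleteBooleanAlgebra L] (m n : ℕ) :
    (nn m : BSet L).mem (nn n) = bo (m < n) := by
  rw [mem_nn]
  by_cases h : m < n
  · rw [bo_true h, eq_top_iff]
    refine le_trans ?_ (le_iSup _ (⟨m, h⟩ : Fin n))
    rw [BSet.eq_refl]
  · rw [bo_false h, eq_bot_iff]
    refine iSup_le fun i => ?_
    rw [eq_nn, bo_false]
    intro hmi
    exact h (hmi ▸ i.2)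

theorem nat : G_NAT := fun _ _ => ⟨mem_nn, mem_omN, eq_nn, mem_nn'⟩

end NU.PkNAT
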